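import Pool.Agent.H994.QS.Fin
import Pool.Agent.H994.QS.Fix
import Pool.Agent.H994.QS.Mono
import Pool.Agent.H994.QS.Sec
import Pool.Agent.H994.QS.Prp
import Pool.Agent.H994.QS.Low
import Pool.Agent.H994.QS.Upp
import Pool.Agent.H994.QS.Law
import Pool.Agent.H994.QS.Big
import Pool.Agent.H994.QS.Sma
import Pool.Agent.H994.QS.NC2
import Pool.Agent.H994.QS.Fla

/-!
# MP_97806e_pr, Q2: expansions of the quenched survival function at criticality do not force
smoothness

There is an offspring law of finite mean `m > 1` such that, for almost every Galton-Watson tree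
`Z`, the quenched survival function `p ↦ g(Z, p)` of Bernoulli(`p`) bond percolation has
expansions of all orders at `p_c⁺ = (1/m)⁺`, but is not of class `C²` at `p_c⁺`.

Proof. The law has the atoms `N_j = 2 ^ (32 ^ (j+1))` with mass `2 ^ (-(j+1)) / (N_j - 2)` and
the rest of the mass at `2`; `m = 3`. The truncated laws (numbers `> N_j` replaced by `2`) have
the means `m_j = 3 - 2 ^ (-(j+1))`. At `p = 1 / m_j` the truncated law is critical, so the
annealed survival function is at most `5 N_j ^ (-16)`, and almost surely the quenched one is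
smaller than `v_j ^ 3 / 4`, `v_j = N_j ^ (-5)`, for all large `j`. At `p = 1 / m_j + v_j ^ 2` the
truncated tree is slightly supercritical; the first two moments of its quenched survival function
`X` satisfy `E X ≥ 2 v_j ^ 2 / N_j`, `E X ^ 2 ≤ 2 N_j (E X) ^ 2`, and since every vertex has at
least two children, `P(X < p s) ≤ P(X < s) ^ 2`; so the quenched survival function is at least
`v_j ^ 3` for all large `j`, almost surely. The second differences at `1 / m_j` with step
`v_j ^ 2` are then at least `v_j ^ 3 / 2`, much larger than `v_j ^ 4`.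
-/

set_option autoImplicit false

open MeasureTheory Filter Topology
open Pool.Agent.H181.GW Pool.Agent.H994.QS

namespace Pool.Agent.Results.MP_97806e_pr.QuenchedNotC2

/-- **Answer to Q2.** There are an offspring law `μ` with mean in `(1, ∞)` such that, for almost
every tree `Z` of law `GWlaw μ`, the quenched survival function `qsurv Z` has an expansion of
every order `k` at `p_c⁺`, `p_c = 1 / m`, but is not of class `C²` at `p_c⁺`. -/
theorem result :
    ∃ (μ : Measure ℕ) (_ : IsProbabilityMeasure μ),
      Integrable (fun n : ℕ => (n : ℝ)) μ ∧ 1 < ∫ n, (n : ℝ) ∂μ ∧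
      ∀ᵐ Z ∂(GWlaw μ),
        (∀ k : ℕ, HasExpansion (qsurv Z) (1 / ∫ n, (n : ℝ) ∂μ) k) ∧
        ¬ ClassC (qsurv Z) (1 / ∫ n, (n : ℝ) ∂μ) 2 :=
  main t_monop t_law
    (t_big t_fix t_meas t_monoZ (t_second t_fix t_meas) (t_prop t_fix t_meas) t_lower)
    (t_small t_meas t_upper) t_notC2 t_flat

end Pool.Agent.Results.MP_97806e_pr.QuenchedNotC2
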